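import Pool.Agent.TH691.LC.Four

/-!
# Covering number of hypergraphs with locally small covers (MP_51656a_co)
-/

namespace TH691.LC

/-- `G` is `r`-uniform -/
def Uniform {V : Type} (r : ℕ) (G : Finset (Finset V)) : Prop := ∀ e ∈ G, e.card = r

/-- `T` meets every edge of `G` -/
def Covers {V : Type} (T : Finset V) (G : Finset (Finset V)) : Prop := ∀ e ∈ G, ∃ x ∈ T, x ∈ e

/-- every subhypergraph of `G` with at most `3 r - 3` vertices has a cover with at most one
vertex -/
def LocallySmall {V : Type} (r : ℕ) (G : Finset (Finset V)) : Prop :=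
  ∀ S : Finset V, S.card ≤ 3 * r - 3 → ∃ T : Finset V, T.card ≤ 1 ∧ ∀ e ∈ G, e ⊆ S → ∃ x ∈ T, x ∈ e

lemma cover_ge {V : Type} [DecidableEq V] {r t : ℕ} {G : Finset (Finset V)}
    (hU : Uniform r G) (hL : LocallySmall r G) (hr : 3 ≤ r) (ht : 2 ≤ t)
    (hcov : ∀ T, Covers T G → t ≤ T.card)
    (hnum : ∀ k, 4 ≤ k → 2 * ((k - 3) * r + 2) < k * (k - 2) * t ∨ (k = 4 ∧ r = 10 ∧ t = 3)) :
    False := by
  classical
  have key : ∀ k : ℕ, ∀ F : Finset (Finset V), F ⊆ G → F.card = k → F.Nonempty →
      ∃ x, ∀ e ∈ F, x ∈ e := by
    intro k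
    induction k using Nat.strong_induction_on with
    | _ k ih =>
    intro F hFG hFk hFne
    by_contra hno
    push Not at hno
    set U := F.biUnion id with hUdef
    have hUbig : 3 * r - 2 ≤ U.card := by
      by_contra hcon
      obtain ⟨T, hT1, hT2⟩ := hL U (by omega)
      obtain ⟨e0, he0⟩ := hFne
      have hsub : ∀ e ∈ F, e ⊆ U := fun e he => Finset.subset_biUnion_of_mem id he
      obtain ⟨x, hxT, _⟩ := hT2 e0 (hFG he0) (hsub e0 he0)
      obtain ⟨e, he, hxe⟩ := hno x
      obtain ⟨y, hyT, hye⟩ := hT2 e (hFG he) (hsub e he)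
      have : x = y := Finset.card_le_one.mp hT1 x hxT y hyT
      rw [this] at hxe
      exact hxe hye
    have hsum : ∑ p ∈ U, (F.filter (fun e => p ∈ e)).card = k * r := by
      have h1 : ∑ p ∈ U, (F.filter (fun e => p ∈ e)).card =
          ∑ e ∈ F, (U.filter (fun p => p ∈ e)).card :=
        Finset.sum_card_bipartiteAbove_eq_sum_card_bipartiteBelow (fun p e => p ∈ e)
      rw [h1]
      have h2 : ∀ e ∈ F, (U.filter (fun p => p ∈ e)).card = r := by
        intro e he
        rw [← hU e (hFG he)]
        congr 1
        ext p
        simp only [Finset.mem_filter]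
        constructor
        · exact fun h => h.2
        · exact fun h => ⟨Finset.mem_biUnion.mpr ⟨e, he, h⟩, h⟩
      rw [Finset.sum_congr rfl h2, Finset.sum_const, hFk, smul_eq_mul]
    have hdeg1 : ∀ p ∈ U, 1 ≤ (F.filter (fun e => p ∈ e)).card := by
      intro p hp
      obtain ⟨e, he, hpe⟩ := Finset.mem_biUnion.mp hp
      exact Finset.card_pos.mpr ⟨e, Finset.mem_filter.mpr ⟨he, hpe⟩⟩
    have hmiss : ∀ p, 1 ≤ (F.filter (fun e => p ∉ e)).card := by
      intro p
      obtain ⟨e, he, hpe⟩ := hno p
      exact Finset.card_pos.mpr ⟨e, Finset.mem_filter.mpr ⟨he, hpe⟩⟩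
    have hsplit : ∀ p, (F.filter (fun e => p ∈ e)).card + (F.filter (fun e => p ∉ e)).card = k := by
      intro p
      rw [← hFk]
      exact Finset.card_filter_add_card_filter_not (s := F) (p := fun e => p ∈ e)
    -- at least four edges
    have hk4 : 4 ≤ k := by
      by_contra hlt
      have h1 : ∑ p ∈ U, (F.filter (fun e => p ∈ e)).card ≤ ∑ p ∈ U, (k - 1) := by
        refine Finset.sum_le_sum (fun p _ => ?_)
        have := hmiss p
        have := hsplit p
        omega
      rw [hsum, Finset.sum_const, smul_eq_mul] at h1
      -- |U| ≥ 3 r - 2; bound from above is missing for few edges, so count pairs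
      have hk1 : 1 ≤ k := by rw [← hFk]; exact Finset.card_pos.mpr hFne
      have h2 : U.card ≤ ∑ p ∈ U, (F.filter (fun e => p ∈ e)).card := by
        calc U.card = ∑ p ∈ U, 1 := by simp
          _ ≤ _ := Finset.sum_le_sum hdeg1
      rw [hsum] at h2
      interval_cases k
      · omega
      · omega
      · -- k = 3
        -- pairs intersect
        have hpair : ∀ e ∈ F, ∀ f ∈ F, e ≠ f → ∃ x, x ∈ e ∧ x ∈ f := by
          intro e he f hf hef
          obtain ⟨x, hx⟩ := ih 2 (by omega) {e, f}
            (by intro g hg; rw [Finset.mem_insert, Finset.mem_singleton] at hg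
                rcases hg with rfl | rfl
                · exact hFG he
                · exact hFG hf)
            (Finset.card_pair hef) ⟨e, by simp⟩
          exact ⟨x, hx e (by simp), hx f (by simp)⟩
        obtain ⟨a, b, c, hab, hac, hbc, rfl⟩ := Finset.card_eq_three.mp hFk
        obtain ⟨x, hx1, hx2⟩ := hpair a (by simp) b (by simp) hab
        obtain ⟨y, hy1, hy2⟩ := hpair a (by simp) c (by simp) hac
        obtain ⟨z, hz1, hz2⟩ := hpair b (by simp) c (by simp) hbc
        have hd : ∀ p, ¬ (p ∈ a ∧ p ∈ b ∧ p ∈ c) := by
          intro p hp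
          obtain ⟨e, he, hpe⟩ := hno p
          simp only [Finset.mem_insert, Finset.mem_singleton] at he
          rcases he with rfl | rfl | rfl
          · exact hpe hp.1
          · exact hpe hp.2.1
          · exact hpe hp.2.2
        have hxy : x ≠ y := fun h => hd x ⟨hx1, hx2, h ▸ hy2⟩
        have hxz : x ≠ z := fun h => hd x ⟨hx1, hx2, h ▸ hz2⟩
        have hyz : y ≠ z := fun h => hd y ⟨hy1, h ▸ hz1, hy2⟩
        -- three points of degree two
        have h3 : ({x, y, z} : Finset V) ⊆ U := by
          intro p hp
          simp only [Finset.mem_insert, Finset.mem_singleton] at hp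
          rw [hUdef]
          rcases hp with rfl | rfl | rfl
          · exact Finset.mem_biUnion.mpr ⟨a, by simp, hx1⟩
          · exact Finset.mem_biUnion.mpr ⟨a, by simp, hy1⟩
          · exact Finset.mem_biUnion.mpr ⟨b, by simp, hz1⟩
        have h4 : ({x, y, z} : Finset V).card = 3 := by
          rw [Finset.card_eq_three]; exact ⟨x, y, z, hxy, hxz, hyz, rfl⟩
        have hdeg2 : ∀ p ∈ ({x, y, z} : Finset V),
            2 ≤ (({a, b, c} : Finset (Finset V)).filter (fun e => p ∈ e)).card := by
          intro p hp
          simp only [Finset.mem_insert, Finset.mem_singleton] at hp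
          rcases hp with rfl | rfl | rfl
          · calc 2 = ({a, b} : Finset (Finset V)).card := (Finset.card_pair hab).symm
              _ ≤ _ := Finset.card_le_card (by
                intro g hg
                simp only [Finset.mem_insert, Finset.mem_singleton] at hg
                rcases hg with rfl | rfl
                · simp [hx1]
                · simp [hx2])
          · calc 2 = ({a, c} : Finset (Finset V)).card := (Finset.card_pair hac).symm
              _ ≤ _ := Finset.card_le_card (by
                intro g hg
                simp only [Finset.mem_insert, Finset.mem_singleton] at hg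
                rcases hg with rfl | rfl
                · simp [hy1]
                · simp [hy2])
          · calc 2 = ({b, c} : Finset (Finset V)).card := (Finset.card_pair hbc).symm
              _ ≤ _ := Finset.card_le_card (by
                intro g hg
                simp only [Finset.mem_insert, Finset.mem_singleton] at hg
                rcases hg with rfl | rfl
                · simp [hz1]
                · simp [hz2])
        have h5 : ∑ p ∈ U, (1 + if p ∈ ({x, y, z} : Finset V) then 1 else 0) ≤
            ∑ p ∈ U, (({a, b, c} : Finset (Finset V)).filter (fun e => p ∈ e)).card := by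
          refine Finset.sum_le_sum (fun p hp => ?_)
          split_ifs with h
          · exact hdeg2 p h
          · exact hdeg1 p hp
        rw [hsum, Finset.sum_add_distrib, Finset.sum_ite_mem, Finset.inter_eq_right.mpr h3,
          Finset.sum_const, Finset.sum_const, h4] at h5
        simp only [smul_eq_mul, mul_one] at h5
        omega
    -- intersections of `k - 2` edges
    have hC : ∀ e ∈ F, ∀ f ∈ F, e ≠ f →
        t ≤ (U.filter (fun p => ∀ g ∈ F, g ≠ e → g ≠ f → p ∈ g)).card := by
      intro e he f hf hef
      apply hcov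
      intro h hhG
      have hcard : (insert h ((F.erase e).erase f)).card ≤ k - 1 := by
        refine (Finset.card_insert_le _ _).trans ?_
        rw [Finset.card_erase_of_mem (Finset.mem_erase.mpr ⟨hef.symm, hf⟩),
          Finset.card_erase_of_mem he, hFk]
        omega
      obtain ⟨x, hx⟩ := ih _ (by omega) (insert h ((F.erase e).erase f))
        (by intro g hg
            rcases Finset.mem_insert.mp hg with rfl | hg
            · exact hhG
            · exact hFG (Finset.mem_of_mem_erase (Finset.mem_of_mem_erase hg)))
        rfl ⟨h, Finset.mem_insert_self _ _⟩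
      have hxg : ∀ g ∈ F, g ≠ e → g ≠ f → x ∈ g := by
        intro g hg hge hgf
        exact hx g (Finset.mem_insert_of_mem (Finset.mem_erase.mpr ⟨hgf,
          Finset.mem_erase.mpr ⟨hge, hg⟩⟩))
      refine ⟨x, Finset.mem_filter.mpr ⟨?_, hxg⟩, hx h (Finset.mem_insert_self _ _)⟩
      -- some third edge contains `x`
      have : ((F.erase e).erase f).Nonempty := by
        rw [← Finset.card_pos, Finset.card_erase_of_mem (Finset.mem_erase.mpr ⟨hef.symm, hf⟩),
          Finset.card_erase_of_mem he, hFk]
        omega
      obtain ⟨g, hg⟩ := this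
      have hg1 := Finset.mem_erase.mp hg
      have hg2 := Finset.mem_erase.mp hg1.2
      exact Finset.mem_biUnion.mpr ⟨g, hg2.2, hxg g hg2.2 hg2.1 hg1.1⟩
    -- weights
    have hw : ∀ p ∈ U, (F.offDiag.filter (fun ef => ∀ g ∈ F, g ≠ ef.1 → g ≠ ef.2 → p ∈ g)).card *
        (k - 2) ≤ 2 * (k - 1) * ((F.filter (fun e => p ∈ e)).card - 1) := by
      intro p hp
      have h1 := hmiss p
      have h2 := hsplit p
      set Mi := F.filter (fun e => p ∉ e) with hMi
      have hsubM : ∀ ef ∈ F.offDiag.filter (fun ef => ∀ g ∈ F, g ≠ ef.1 → g ≠ ef.2 → p ∈ g),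
          Mi ⊆ {ef.1, ef.2} := by
        intro ef hef g hg
        rw [Finset.mem_filter] at hef
        rw [hMi, Finset.mem_filter] at hg
        rw [Finset.mem_insert, Finset.mem_singleton]
        by_contra hcon
        push Not at hcon
        exact hg.2 (hef.2 g hg.1 hcon.1 hcon.2)
      rcases Nat.lt_or_ge Mi.card 2 with hc | hc
      · -- one missing edge
        obtain ⟨a, ha⟩ := Finset.card_eq_one.mp (by omega : Mi.card = 1)
        have haF : a ∈ F := by
          have : a ∈ Mi := by rw [ha]; simp
          exact (Finset.mem_filter.mp this).1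
        have h3 : (F.offDiag.filter (fun ef => ∀ g ∈ F, g ≠ ef.1 → g ≠ ef.2 → p ∈ g)).card ≤
            2 * (k - 1) := by
          have h4 : F.offDiag.filter (fun ef => ∀ g ∈ F, g ≠ ef.1 → g ≠ ef.2 → p ∈ g) ⊆
              ((F.erase a).image (fun f => (a, f))) ∪ ((F.erase a).image (fun f => (f, a))) := by
            intro ef hef
            have h5 := hsubM ef hef
            rw [Finset.mem_filter, Finset.mem_offDiag] at hef
            have h6 : a ∈ ({ef.1, ef.2} : Finset (Finset V)) := h5 (by rw [ha]; simp)
            rw [Finset.mem_insert, Finset.mem_singleton] at h6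
            rw [Finset.mem_union, Finset.mem_image, Finset.mem_image]
            rcases h6 with h6 | h6
            · left
              exact ⟨ef.2, Finset.mem_erase.mpr ⟨fun h => hef.1.2.2 (by rw [← h6, h]), hef.1.2.1⟩,
                by rw [h6]⟩
            · right
              exact ⟨ef.1, Finset.mem_erase.mpr ⟨fun h => hef.1.2.2 (by rw [← h6, h]), hef.1.1⟩,
                by rw [h6]⟩
          refine (Finset.card_le_card h4).trans ((Finset.card_union_le _ _).trans ?_)
          have h7 : (F.erase a).card = k - 1 := by rw [Finset.card_erase_of_mem haF, hFk]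
          have h8 := Finset.card_image_le (s := F.erase a) (f := fun f => (a, f))
          have h9 := Finset.card_image_le (s := F.erase a) (f := fun f => (f, a))
          omega
        have h10 : (F.filter (fun e => p ∈ e)).card - 1 = k - 2 := by omega
        rw [h10]
        exact Nat.mul_le_mul_right _ h3
      · rcases Nat.lt_or_ge Mi.card 3 with hc3 | hc3
        · -- two missing edges
          obtain ⟨a, b, hab, hMab⟩ := Finset.card_eq_two.mp (by omega : Mi.card = 2)
          have h3 : (F.offDiag.filter (fun ef => ∀ g ∈ F, g ≠ ef.1 → g ≠ ef.2 → p ∈ g)).card ≤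
              2 := by
            have h4 : F.offDiag.filter (fun ef => ∀ g ∈ F, g ≠ ef.1 → g ≠ ef.2 → p ∈ g) ⊆
                {(a, b), (b, a)} := by
              intro ef hef
              have h5 := hsubM ef hef
              have h6 : a ∈ ({ef.1, ef.2} : Finset (Finset V)) := h5 (by rw [hMab]; simp)
              have h7 : b ∈ ({ef.1, ef.2} : Finset (Finset V)) := h5 (by rw [hMab]; simp)
              rw [Finset.mem_insert, Finset.mem_singleton] at h6 h7
              rw [Finset.mem_insert, Finset.mem_singleton]
              rcases h6 with h6 | h6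
              · rcases h7 with h7 | h7
                · exact absurd (h6.trans h7.symm) hab
                · left; rw [h6, h7]
              · rcases h7 with h7 | h7
                · right; rw [h6, h7]
                · exact absurd (h6.trans h7.symm) hab
            refine (Finset.card_le_card h4).trans ((Finset.card_insert_le _ _).trans ?_)
            simp
          have h10 : (F.filter (fun e => p ∈ e)).card - 1 = k - 3 := by omega
          rw [h10]
          refine (Nat.mul_le_mul_right _ h3).trans ?_
          obtain ⟨j, rfl⟩ := Nat.exists_eq_add_of_le hk4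
          have e1 : 4 + j - 2 = j + 2 := by omega
          have e2 : 4 + j - 1 = j + 3 := by omega
          have e3 : 4 + j - 3 = j + 1 := by omega
          rw [e1, e2, e3]
          nlinarith
        · -- at least three missing edges
          have h3 : (F.offDiag.filter (fun ef => ∀ g ∈ F, g ≠ ef.1 → g ≠ ef.2 → p ∈ g)).card =
              0 := by
            rw [Finset.card_eq_zero, Finset.eq_empty_iff_forall_notMem]
            intro ef hef
            have h5 := Finset.card_le_card (hsubM ef hef)
            have h6 : ({ef.1, ef.2} : Finset (Finset V)).card ≤ 2 := Finset.card_le_two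
            omega
          rw [h3, Nat.zero_mul]
          exact Nat.zero_le _
    -- double counting
    have hdc : ∑ ef ∈ F.offDiag, (U.filter (fun p => ∀ g ∈ F, g ≠ ef.1 → g ≠ ef.2 → p ∈ g)).card =
        ∑ p ∈ U, (F.offDiag.filter (fun ef => ∀ g ∈ F, g ≠ ef.1 → g ≠ ef.2 → p ∈ g)).card :=
      Finset.sum_card_bipartiteAbove_eq_sum_card_bipartiteBelow
        (fun (ef : Finset V × Finset V) (p : V) => ∀ g ∈ F, g ≠ ef.1 → g ≠ ef.2 → p ∈ g)
    have hlow : k * (k - 1) * t ≤
        ∑ ef ∈ F.offDiag, (U.filter (fun p => ∀ g ∈ F, g ≠ ef.1 → g ≠ ef.2 → p ∈ g)).card := by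
      have h1 := Finset.card_nsmul_le_sum F.offDiag
        (fun ef => (U.filter (fun p => ∀ g ∈ F, g ≠ ef.1 → g ≠ ef.2 → p ∈ g)).card) t
        (fun ef hef => by
          rw [Finset.mem_offDiag] at hef
          exact hC ef.1 hef.1 ef.2 hef.2.1 hef.2.2)
      rw [Finset.offDiag_card, hFk, smul_eq_mul] at h1
      have h2 : k * k - k = k * (k - 1) := by rw [Nat.mul_sub, Nat.mul_one]
      rw [h2] at h1
      exact h1
    have hup : (∑ p ∈ U, (F.offDiag.filter
        (fun ef => ∀ g ∈ F, g ≠ ef.1 → g ≠ ef.2 → p ∈ g)).card) * (k - 2) ≤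
        2 * (k - 1) * (k * r - U.card) := by
      rw [Finset.sum_mul]
      refine (Finset.sum_le_sum hw).trans ?_
      rw [← Finset.mul_sum]
      refine Nat.mul_le_mul_left _ ?_
      have h1 : ∑ p ∈ U, ((F.filter (fun e => p ∈ e)).card - 1) + U.card = k * r := by
        rw [← hsum]
        have h2 : U.card = ∑ p ∈ U, 1 := by simp
        rw [h2, ← Finset.sum_add_distrib]
        refine Finset.sum_congr rfl (fun p hp => ?_)
        have := hdeg1 p hp
        omega
      omega
    have hfin : k * (k - 1) * t * (k - 2) ≤ 2 * (k - 1) * ((k - 3) * r + 2) := by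
      refine (Nat.mul_le_mul_right _ (hlow.trans hdc.le)).trans (hup.trans ?_)
      refine Nat.mul_le_mul_left _ ?_
      obtain ⟨j, rfl⟩ := Nat.exists_eq_add_of_le hk4
      have e3 : 4 + j - 3 = j + 1 := by omega
      rw [e3]
      have e4 : (4 + j) * r = (j + 1) * r + 3 * r := by ring
      omega
    rcases hnum k hk4 with hn | ⟨hk, hr10, ht3⟩
    swap
    · -- four edges of size ten
      exfalso
      subst hk
      subst hr10
      subst ht3
      obtain ⟨a, ha⟩ := hFne
      have h3 : (F.erase a).card = 3 := by rw [Finset.card_erase_of_mem ha, hFk]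
      obtain ⟨b, c, d, hbc, hbd, hcd, hE⟩ := Finset.card_eq_three.mp h3
      have hb' : b ∈ F.erase a := by rw [hE]; simp
      have hc' : c ∈ F.erase a := by rw [hE]; simp
      have hd' : d ∈ F.erase a := by rw [hE]; simp
      obtain ⟨hba, hb⟩ := Finset.mem_erase.mp hb'
      obtain ⟨hca, hc⟩ := Finset.mem_erase.mp hc'
      obtain ⟨hda, hd⟩ := Finset.mem_erase.mp hd'
      have hF : ∀ g ∈ F, g = a ∨ g = b ∨ g = c ∨ g = d := by
        intro g hg
        by_cases hga : g = a
        · exact Or.inl hga
        · have : g ∈ F.erase a := Finset.mem_erase.mpr ⟨hga, hg⟩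
          rw [hE] at this
          simp only [Finset.mem_insert, Finset.mem_singleton] at this
          exact Or.inr this
      have hpair : ∀ e ∈ F, ∀ f ∈ F, e ≠ f → ∀ g ∈ F, ∀ h ∈ F, g ≠ e → g ≠ f → h ≠ e → h ≠ f →
          3 ≤ (g ∩ h).card := by
        intro e he f hf hef g hg h hh h1 h2 h4 h5
        refine (hC e he f hf hef).trans (Finset.card_le_card ?_)
        intro x hx
        have hx' := (Finset.mem_filter.mp hx).2
        exact Finset.mem_inter.mpr ⟨hx' g hg h1 h2, hx' h hh h4 h5⟩
      refine four_ten a b c d ?_ (hU a (hFG ha)) (hU b (hFG hb)) (hU c (hFG hc)) (hU d (hFG hd))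
        (hpair c hc d hd hcd a ha b hb hca.symm hda.symm hbc hbd)
        (hpair b hb d hd hbd a ha c hc hba.symm hda.symm hbc.symm hcd)
        (hpair a ha d hd hda.symm b hb c hc hba hbd hca hcd)
        (hpair b hb c hc hbc a ha d hd hba.symm hca.symm hbd.symm hcd.symm)
        (hpair a ha c hc hca.symm b hb d hd hba hbc hda hcd.symm)
        (hpair a ha b hb hba.symm c hc d hd hca hbc.symm hda hbd.symm) ?_
      · rw [Finset.eq_empty_iff_forall_notMem]
        intro x hx
        simp only [Finset.mem_inter] at hx
        obtain ⟨e, he, hxe⟩ := hno x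
        rcases hF e he with rfl | rfl | rfl | rfl
        · exact hxe hx.1.1.1
        · exact hxe hx.1.1.2
        · exact hxe hx.1.2
        · exact hxe hx.2
      · have hsub : U ⊆ a ∪ b ∪ c ∪ d := by
          intro x hx
          obtain ⟨e, he, hxe⟩ := Finset.mem_biUnion.mp hx
          have hxe' : x ∈ e := hxe
          simp only [Finset.mem_union]
          rcases hF e he with rfl | rfl | rfl | rfl
          · exact Or.inl (Or.inl (Or.inl hxe'))
          · exact Or.inl (Or.inl (Or.inr hxe'))
          · exact Or.inl (Or.inr hxe')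
          · exact Or.inr hxe'
        have := Finset.card_le_card hsub
        omega
    obtain ⟨j, rfl⟩ := Nat.exists_eq_add_of_le hk4
    have e1 : 4 + j - 2 = j + 2 := by omega
    have e2 : 4 + j - 1 = j + 3 := by omega
    have e3 : 4 + j - 3 = j + 1 := by omega
    rw [e1, e3] at hn
    rw [e1, e2, e3] at hfin
    have h1 : (j + 3) * (2 * ((j + 1) * r + 2)) < (j + 3) * ((4 + j) * (j + 2) * t) :=
      Nat.mul_lt_mul_of_pos_left hn (by omega)
    have h2 : (4 + j) * (j + 3) * t * (j + 2) = (j + 3) * ((4 + j) * (j + 2) * t) := by ring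
    have h3 : 2 * (j + 3) * ((j + 1) * r + 2) = (j + 3) * (2 * ((j + 1) * r + 2)) := by ring
    omega
  by_cases hG : G.Nonempty
  · obtain ⟨x, hx⟩ := key G.card G (Finset.Subset.refl _) rfl hG
    have := hcov {x} (fun e he => ⟨x, by simp, hx e he⟩)
    simp at this
    omega
  · rw [Finset.not_nonempty_iff_eq_empty] at hG
    have := hcov ∅ (fun e he => by rw [hG] at he; simp at he)
    simp at this
    omega

end TH691.LC
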