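import Mathlib

/-!
# Four edges without a common vertex, for `r = 10` (MP_51656a_co)
-/

namespace TH691.LC

lemma ie3 {V : Type} [DecidableEq V] (x y z : Finset V) :
    (x ∪ y ∪ z).card + (x ∩ y).card + (x ∩ z).card + (y ∩ z).card =
      x.card + y.card + z.card + (x ∩ y ∩ z).card := by
  have h1 := Finset.card_union_add_card_inter (x ∪ y) z
  have h2 := Finset.card_union_add_card_inter x y
  have h3 := Finset.card_union_add_card_inter (x ∩ z) (y ∩ z)
  have h4 : (x ∪ y) ∩ z = (x ∩ z) ∪ (y ∩ z) := by ext v; simp only [Finset.mem_inter, Finset.mem_union]; tauto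
  have h5 : (x ∩ z) ∩ (y ∩ z) = x ∩ y ∩ z := by ext v; simp only [Finset.mem_inter]; tauto
  rw [h4] at h1
  rw [h5] at h3
  omega

lemma ie4 {V : Type} [DecidableEq V] (x y z w : Finset V) (h : x ∩ y ∩ z ∩ w = ∅) :
    (x ∪ y ∪ z ∪ w).card + (x ∩ y).card + (x ∩ z).card + (y ∩ z).card + (x ∩ w).card +
      (y ∩ w).card + (z ∩ w).card =
      x.card + y.card + z.card + w.card + (x ∩ y ∩ z).card + (x ∩ y ∩ w).card +
      (x ∩ z ∩ w).card + (y ∩ z ∩ w).card := by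
  have h1 := Finset.card_union_add_card_inter (x ∪ y ∪ z) w
  have h2 := ie3 x y z
  have h3 := ie3 (x ∩ w) (y ∩ w) (z ∩ w)
  have h4 : (x ∪ y ∪ z) ∩ w = (x ∩ w) ∪ (y ∩ w) ∪ (z ∩ w) := by
    ext v; simp only [Finset.mem_inter, Finset.mem_union]; tauto
  have h5 : (x ∩ w) ∩ (y ∩ w) = x ∩ y ∩ w := by ext v; simp only [Finset.mem_inter]; tauto
  have h6 : (x ∩ w) ∩ (z ∩ w) = x ∩ z ∩ w := by ext v; simp only [Finset.mem_inter]; tauto
  have h7 : (y ∩ w) ∩ (z ∩ w) = y ∩ z ∩ w := by ext v; simp only [Finset.mem_inter]; tauto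
  have h8 : x ∩ y ∩ w ∩ (z ∩ w) = x ∩ y ∩ z ∩ w := by
    ext v; simp only [Finset.mem_inter]; tauto
  rw [h4] at h1
  rw [h5, h6, h7, h8, h, Finset.card_empty] at h3
  omega

lemma two_le {V : Type} [DecidableEq V] (x y z w : Finset V) (h : x ∩ y ∩ z ∩ w = ∅) :
    (x ∩ y ∩ z).card + (x ∩ y ∩ w).card ≤ (x ∩ y).card := by
  have h1 := Finset.card_union_add_card_inter (x ∩ y ∩ z) (x ∩ y ∩ w)
  have h2 : (x ∩ y ∩ z) ∩ (x ∩ y ∩ w) = ∅ := by
    rw [← h]; ext v; simp only [Finset.mem_inter]; tauto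
  have h3 : ((x ∩ y ∩ z) ∪ (x ∩ y ∩ w)).card ≤ (x ∩ y).card := by
    refine Finset.card_le_card ?_
    intro v hv
    simp only [Finset.mem_inter, Finset.mem_union] at hv ⊢
    tauto
  rw [h2, Finset.card_empty] at h1
  omega

lemma four_ten {V : Type} [DecidableEq V] (a b c d : Finset V) (h : a ∩ b ∩ c ∩ d = ∅)
    (ha : a.card = 10) (hb : b.card = 10) (hc : c.card = 10) (hd : d.card = 10)
    (h1 : 3 ≤ (a ∩ b).card) (h2 : 3 ≤ (a ∩ c).card) (h3 : 3 ≤ (b ∩ c).card)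
    (h4 : 3 ≤ (a ∩ d).card) (h5 : 3 ≤ (b ∩ d).card) (h6 : 3 ≤ (c ∩ d).card)
    (hU : 28 ≤ (a ∪ b ∪ c ∪ d).card) : False := by
  have e := ie4 a b c d h
  have q1 := two_le a b c d h
  have q2 := two_le a c b d (by rw [← h]; ext v; simp only [Finset.mem_inter]; tauto)
  have q3 := two_le b c a d (by rw [← h]; ext v; simp only [Finset.mem_inter]; tauto)
  have q4 := two_le a d b c (by rw [← h]; ext v; simp only [Finset.mem_inter]; tauto)
  have q5 := two_le b d a c (by rw [← h]; ext v; simp only [Finset.mem_inter]; tauto)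
  have q6 := two_le c d a b (by rw [← h]; ext v; simp only [Finset.mem_inter]; tauto)
  have r1 : a ∩ c ∩ b = a ∩ b ∩ c := by ext v; simp only [Finset.mem_inter]; tauto
  have r2 : b ∩ c ∩ a = a ∩ b ∩ c := by ext v; simp only [Finset.mem_inter]; tauto
  have r3 : a ∩ d ∩ b = a ∩ b ∩ d := by ext v; simp only [Finset.mem_inter]; tauto
  have r4 : a ∩ d ∩ c = a ∩ c ∩ d := by ext v; simp only [Finset.mem_inter]; tauto
  have r5 : b ∩ d ∩ a = a ∩ b ∩ d := by ext v; simp only [Finset.mem_inter]; tauto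
  have r6 : b ∩ d ∩ c = b ∩ c ∩ d := by ext v; simp only [Finset.mem_inter]; tauto
  have r7 : c ∩ d ∩ a = a ∩ c ∩ d := by ext v; simp only [Finset.mem_inter]; tauto
  have r8 : c ∩ d ∩ b = b ∩ c ∩ d := by ext v; simp only [Finset.mem_inter]; tauto
  rw [r1] at q2
  rw [r2] at q3
  rw [r3, r4] at q4
  rw [r5, r6] at q5
  rw [r7, r8] at q6
  omega

end TH691.LC
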