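import Pool.Agent.TH691.LC.Basic

/-!
# Constructions (MP_51656a_co)
-/

namespace TH691.LC

/-- the core set `K` together with `q` private vertices -/
def edge (v q : ℕ) (K : Finset (Fin v)) : Finset (Fin v ⊕ (Finset (Fin v) × Fin q)) :=
  K.disjSum (({K} : Finset (Finset (Fin v))) ×ˢ (Finset.univ : Finset (Fin q)))

/-- all `c`-subsets of a `v`-set, enlarged by private vertices -/
def HG (v c q : ℕ) : Finset (Finset (Fin v ⊕ (Finset (Fin v) × Fin q))) :=
  (Finset.powersetCard c (Finset.univ : Finset (Fin v))).image (edge v q)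

lemma edge_card (v q : ℕ) (K : Finset (Fin v)) : (edge v q K).card = K.card + q := by
  unfold edge
  rw [Finset.card_disjSum, Finset.card_product]
  simp

lemma HG_uniform (v c q r : ℕ) (h : r = c + q) : Uniform r (HG v c q) := by
  intro e he
  obtain ⟨K, hK, rfl⟩ := Finset.mem_image.mp he
  rw [edge_card, (Finset.mem_powersetCard.mp hK).2, h]

lemma HG_local (v c q r : ℕ) (hv : 0 < v)
    (hnum : ∀ j u, 1 ≤ j → u ≤ v → c * j ≤ (j - 1) * u → 3 * r - 3 < u + j * q) :
    LocallySmall r (HG v c q) := by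
  classical
  intro S hS
  set KK := (Finset.powersetCard c (Finset.univ : Finset (Fin v))).filter
    (fun K => edge v q K ⊆ S) with hKK
  by_cases hcom : ∃ p, ∀ K ∈ KK, p ∈ K
  · obtain ⟨p, hp⟩ := hcom
    refine ⟨{Sum.inl p}, by simp, ?_⟩
    intro e he heS
    obtain ⟨K, hK, rfl⟩ := Finset.mem_image.mp he
    refine ⟨Sum.inl p, by simp, ?_⟩
    unfold edge
    rw [Finset.inl_mem_disjSum]
    exact hp K (Finset.mem_filter.mpr ⟨hK, heS⟩)
  · exfalso
    push Not at hcom
    set U := KK.biUnion id with hU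
    have hj : 1 ≤ KK.card := by
      obtain ⟨K, hK, _⟩ := hcom ⟨0, hv⟩
      exact Finset.card_pos.mpr ⟨K, hK⟩
    have hu : U.card ≤ v := by
      have := Finset.card_le_univ U
      simpa using this
    have hsum : ∑ p ∈ U, (KK.filter (fun K => p ∈ K)).card = c * KK.card := by
      have h1 : ∑ p ∈ U, (KK.filter (fun K => p ∈ K)).card =
          ∑ K ∈ KK, (U.filter (fun p => p ∈ K)).card :=
        Finset.sum_card_bipartiteAbove_eq_sum_card_bipartiteBelow (fun p K => p ∈ K)
      rw [h1]
      have h2 : ∀ K ∈ KK, (U.filter (fun p => p ∈ K)).card = c := by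
        intro K hK
        have h3 := (Finset.mem_powersetCard.mp (Finset.mem_filter.mp hK).1).2
        rw [← h3]
        congr 1
        ext p
        simp only [Finset.mem_filter]
        constructor
        · exact fun h => h.2
        · exact fun h => ⟨Finset.mem_biUnion.mpr ⟨K, hK, h⟩, h⟩
      rw [Finset.sum_congr rfl h2, Finset.sum_const, smul_eq_mul, Nat.mul_comm]
    have hle : ∑ p ∈ U, (KK.filter (fun K => p ∈ K)).card ≤ ∑ p ∈ U, (KK.card - 1) := by
      refine Finset.sum_le_sum (fun p _ => ?_)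
      obtain ⟨K, hK, hpK⟩ := hcom p
      have h1 : KK.filter (fun K => p ∈ K) ⊆ KK.erase K := by
        intro K' hK'
        rw [Finset.mem_filter] at hK'
        exact Finset.mem_erase.mpr ⟨fun h => hpK (h ▸ hK'.2), hK'.1⟩
      have h2 := Finset.card_le_card h1
      rwa [Finset.card_erase_of_mem hK] at h2
    rw [hsum, Finset.sum_const, smul_eq_mul, Nat.mul_comm U.card] at hle
    have h1 := hnum KK.card U.card hj hu hle
    have h2 : (U.disjSum (KK ×ˢ (Finset.univ : Finset (Fin q)))).card ≤ S.card := by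
      refine Finset.card_le_card ?_
      intro x hx
      rcases x with p | ⟨K, l⟩
      · rw [Finset.inl_mem_disjSum] at hx
        obtain ⟨K, hK, hpK⟩ := Finset.mem_biUnion.mp hx
        refine (Finset.mem_filter.mp hK).2 ?_
        unfold edge
        rw [Finset.inl_mem_disjSum]
        exact hpK
      · rw [Finset.inr_mem_disjSum, Finset.mem_product] at hx
        refine (Finset.mem_filter.mp hx.1).2 ?_
        unfold edge
        rw [Finset.inr_mem_disjSum, Finset.mem_product]
        exact ⟨by simp, by simp⟩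
    rw [Finset.card_disjSum, Finset.card_product, Finset.card_univ, Fintype.card_fin] at h2
    omega

lemma HG_cover (v c q : ℕ) (hc : 0 < c) (hcv : c ≤ v)
    (T : Finset (Fin v ⊕ (Finset (Fin v) × Fin q))) (hT : Covers T (HG v c q)) :
    v - c + 1 ≤ T.card := by
  classical
  by_contra hcon
  let φ : Fin v ⊕ (Finset (Fin v) × Fin q) → Fin v := fun x =>
    match x with
    | Sum.inl p => p
    | Sum.inr Kl => if h : Kl.1.Nonempty then h.choose else ⟨0, by omega⟩
  have h1 : (T.image φ).card ≤ v - c := Finset.card_image_le.trans (by omega)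
  have h2 : c ≤ (Finset.univ \ T.image φ).card := by
    have := Finset.le_card_sdiff (T.image φ) (Finset.univ : Finset (Fin v))
    rw [Finset.card_univ, Fintype.card_fin] at this
    omega
  obtain ⟨K, hK1, hK2⟩ := Finset.exists_subset_card_eq h2
  have hKmem : edge v q K ∈ HG v c q :=
    Finset.mem_image.mpr ⟨K, Finset.mem_powersetCard.mpr ⟨Finset.subset_univ _, hK2⟩, rfl⟩
  obtain ⟨x, hxT, hx⟩ := hT _ hKmem
  have h3 : φ x ∈ T.image φ := Finset.mem_image_of_mem φ hxT
  have h4 : φ x ∈ K := by
    unfold edge at hx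
    rcases x with p | ⟨K', l⟩
    · rw [Finset.inl_mem_disjSum] at hx
      exact hx
    · rw [Finset.inr_mem_disjSum, Finset.mem_product, Finset.mem_singleton] at hx
      have h5 : K' = K := hx.1
      subst h5
      have hne : K'.Nonempty := Finset.card_pos.mp (by omega)
      show (if h : K'.Nonempty then h.choose else ⟨0, by omega⟩) ∈ K'
      rw [dif_pos hne]
      exact hne.choose_spec
  exact (Finset.mem_sdiff.mp (hK1 h4)).2 h3

/-- `t` is the largest covering number of an `r`-uniform hypergraph all of whose subhypergraphs on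
at most `3 r - 3` vertices have covering number at most one -/
def IsMaxTau (r t : ℕ) : Prop :=
  (∀ (V : Type) (G : Finset (Finset V)), Uniform r G → LocallySmall r G →
    ∃ T : Finset V, T.card ≤ t ∧ Covers T G) ∧
  ∃ (V : Type) (G : Finset (Finset V)), Uniform r G ∧ LocallySmall r G ∧
    ∀ T : Finset V, Covers T G → t ≤ T.card

lemma isMaxTau_of (r t v c : ℕ) (hr : 3 ≤ r) (ht : 1 ≤ t)
    (hup : ∀ k, 4 ≤ k → 2 * ((k - 3) * r + 2) < k * (k - 2) * (t + 1) ∨
      (k = 4 ∧ r = 10 ∧ t + 1 = 3))
    (hc : 0 < c) (hcv : c ≤ v) (hcr : c ≤ r) (htv : t = v - c + 1)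
    (hnum : ∀ j u, 1 ≤ j → u ≤ v → c * j ≤ (j - 1) * u → 3 * r - 3 < u + j * (r - c)) :
    IsMaxTau r t := by
  classical
  constructor
  · intro V G hU hL
    by_contra hcon
    push Not at hcon
    refine cover_ge (t := t + 1) hU hL hr (by omega) ?_ hup
    intro T hT
    by_contra h
    exact hcon T (by omega) hT
  · refine ⟨_, HG v c (r - c), HG_uniform v c (r - c) r (by omega),
      HG_local v c (r - c) r (by omega) hnum, ?_⟩
    intro T hT
    rw [htv]
    exact HG_cover v c (r - c) hc hcv T hT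

lemma num_of (T r : ℕ) (h : ∀ j : ℕ, 2 * ((j + 1) * r + 2) < (4 + j) * (j + 2) * T) :
    ∀ k, 4 ≤ k → 2 * ((k - 3) * r + 2) < k * (k - 2) * T ∨ (k = 4 ∧ r = 10 ∧ T = 3) := by
  intro k hk
  left
  obtain ⟨j, rfl⟩ := Nat.exists_eq_add_of_le hk
  have e1 : 4 + j - 2 = j + 2 := by omega
  have e3 : 4 + j - 3 = j + 1 := by omega
  rw [e1, e3]
  exact h j

theorem one (r : ℕ) (h1 : 3 ≤ r) (h2 : r ≤ 5) : IsMaxTau r 1 := by
  refine isMaxTau_of r 1 1 1 h1 le_rfl (num_of _ _ ?_) (by omega) (by omega) (by omega) (by omega) ?_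
  · intro j
    interval_cases r <;> nlinarith
  · intro j u hj hu h
    interval_cases u <;> omega

theorem two (r : ℕ) (h1 : 6 ≤ r) (h2 : r ≤ 10) : IsMaxTau r 2 := by
  refine isMaxTau_of r 2 4 3 (by omega) (by omega) ?_ (by omega) (by omega) (by omega)
    (by omega) ?_
  · rcases Nat.lt_or_ge r 10 with h3 | h3
    · refine num_of _ _ ?_
      intro j
      interval_cases r <;> nlinarith
    · have h4 : r = 10 := by omega
      subst h4
      intro k hk
      rcases Nat.eq_or_lt_of_le hk with h5 | h5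
      · right; exact ⟨h5.symm, rfl, rfl⟩
      · left
        obtain ⟨j, rfl⟩ := Nat.exists_eq_add_of_lt h5
        have e1 : 4 + j + 1 - 2 = j + 3 := by omega
        have e3 : 4 + j + 1 - 3 = j + 2 := by omega
        rw [e1, e3]
        nlinarith
  · intro j u hj hu h
    interval_cases u <;> interval_cases r <;> omega

theorem three (r : ℕ) (h1 : 11 ≤ r) (h2 : r ≤ 13) : IsMaxTau r 3 := by
  refine isMaxTau_of r 3 7 5 (by omega) (by omega) (num_of _ _ ?_) (by omega) (by omega) (by omega)
    (by omega) ?_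
  · intro j
    interval_cases r
    · nlinarith [sq_nonneg ((j : ℤ) - 1)]
    · nlinarith [sq_nonneg ((j : ℤ) - 1)]
    · zify; nlinarith [sq_nonneg ((j : ℤ) - 1), sq_nonneg ((4 * j : ℤ) - 1)]
  · intro j u hj hu h
    interval_cases u <;> interval_cases r <;> omega

end TH691.LC
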